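import Mathlib

/-!
# Dichromatic numbers of orientations: definitions and the gluing lemma
-/

open Cardinal Set

universe u v w

namespace K9h64.Dichi

variable {V : Type u}

/-- An orientation of the simple graph `G`: every edge is replaced by exactly one of its two
arcs, and there are no other arcs. -/
structure Orient {V : Type u} (G : SimpleGraph V) where
  /-- `arc u v`: the arc from `u` to `v` is present. -/
  arc : V → V → Prop
  adj_of_arc : ∀ u v, arc u v → G.Adj u v
  exactly_one : ∀ u v, G.Adj u v → (arc u v ↔ ¬ arc v u)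

/-- The set `S` contains no directed closed walk (equivalently: no directed cycle) of the digraph
with arc relation `r`. -/
def Acyclic (r : V → V → Prop) (S : Set V) : Prop :=
  ∀ v, ¬ Relation.TransGen (fun a b => r a b ∧ a ∈ S ∧ b ∈ S) v v

/-- The dichromatic number of an orientation `D`: the least cardinality of a set of colours `C`
for which some colouring `c : V → C` has only acyclic colour classes. -/
noncomputable def Orient.dichromatic {G : SimpleGraph V} (D : Orient G) : Cardinal.{u} :=
  sInf {lam | ∃ (C : Type u) (c : V → C), #C = lam ∧ ∀ i, Acyclic D.arc {v | c v = i}}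

/-- The relative version: least size of a family of acyclic sets covering `A`. -/
noncomputable def dichi {G : SimpleGraph V} (D : Orient G) (A : Set V) : Cardinal.{u} :=
  sInf {lam | ∃ (C : Type u) (S : C → Set V), #C = lam ∧ (∀ i, Acyclic D.arc (S i)) ∧
    A ⊆ ⋃ i, S i}

theorem acyclic_mono {r : V → V → Prop} {S T : Set V} (h : S ⊆ T) (hT : Acyclic r T) :
    Acyclic r S := by
  intro v hv
  exact hT v (Relation.TransGen.mono (fun a b hab => ⟨hab.1, h hab.2.1, h hab.2.2⟩) _ _ hv)

theorem acyclic_empty (r : V → V → Prop) : Acyclic r ∅ := by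
  intro v hv
  cases hv with
  | single h => exact h.2.1
  | tail _ h => exact h.2.1

variable {G : SimpleGraph V}

theorem Orient.irrefl (D : Orient G) (v : V) : ¬ D.arc v v := fun h =>
  G.loopless.irrefl v (D.adj_of_arc v v h)

theorem acyclic_singleton (D : Orient G) (v : V) : Acyclic D.arc {v} := by
  intro w hw
  cases hw with
  | single h =>
    have h1 : w = v := h.2.1
    subst h1
    exact D.irrefl _ h.1
  | tail _ h =>
    rename_i b _
    have h1 : b = v := h.2.1
    have h2 : w = v := h.2.2
    subst h1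
    rw [h2] at h
    exact D.irrefl _ h.1

theorem dichi_le {D : Orient G} {A : Set V} {C : Type u} (S : C → Set V)
    (hS : ∀ i, Acyclic D.arc (S i)) (hA : A ⊆ ⋃ i, S i) : dichi D A ≤ #C :=
  csInf_le' ⟨C, S, rfl, hS, hA⟩

theorem exists_cover (D : Orient G) (A : Set V) :
    ∃ (C : Type u) (S : C → Set V), #C = dichi D A ∧ (∀ i, Acyclic D.arc (S i)) ∧
      A ⊆ ⋃ i, S i := by
  have hne : {lam : Cardinal.{u} | ∃ (C : Type u) (S : C → Set V), #C = lam ∧
      (∀ i, Acyclic D.arc (S i)) ∧ A ⊆ ⋃ i, S i}.Nonempty :=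
    ⟨#V, V, fun v => {v}, rfl, acyclic_singleton D, fun v _ => by simp⟩
  exact csInf_mem hne

theorem dichi_le_mk (D : Orient G) (A : Set V) : dichi D A ≤ #V :=
  dichi_le (fun v => {v}) (acyclic_singleton D) (fun v _ => by simp)

theorem dichi_mono (D : Orient G) {A B : Set V} (h : A ⊆ B) : dichi D A ≤ dichi D B := by
  obtain ⟨C, S, hC, hS, hB⟩ := exists_cover D B
  rw [← hC]
  exact dichi_le S hS (h.trans hB)

theorem exists_partition (D : Orient G) (A : Set V) :
    ∃ (C : Type u) (S : C → Set V), #C = dichi D A ∧ (∀ i, Acyclic D.arc (S i)) ∧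
      A ⊆ ⋃ i, S i ∧ (∀ i, S i ⊆ A) ∧ Pairwise (fun i j => Disjoint (S i) (S j)) := by
  classical
  obtain ⟨C, S, hC, hS, hA⟩ := exists_cover D A
  have h : ∀ v ∈ A, ∃ i, v ∈ S i := fun v hv => by simpa using hA hv
  choose f hf using h
  refine ⟨C, fun i => {v | ∃ h : v ∈ A, f v h = i}, hC, ?_, ?_, ?_, ?_⟩
  · intro i
    refine acyclic_mono ?_ (hS i)
    rintro v ⟨hv, rfl⟩
    exact hf v hv
  · intro v hv
    simp only [mem_iUnion, mem_ofPred_eq]
    exact ⟨f v hv, hv, rfl⟩
  · rintro i v ⟨hv, _⟩
    exact hv
  · intro i j hij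
    rw [Set.disjoint_left]
    rintro v ⟨hv, h1⟩ ⟨hv', h2⟩
    exact hij (h1.symm.trans h2)

theorem exists_cover_of_le {D : Orient G} {A : Set V} {C : Type u} (h : dichi D A ≤ #C) :
    ∃ S : C → Set V, (∀ i, Acyclic D.arc (S i)) ∧ A ⊆ ⋃ i, S i := by
  classical
  obtain ⟨C', S, hC, hS, hA⟩ := exists_cover D A
  rw [← hC] at h
  obtain ⟨f⟩ := h
  refine ⟨fun c => if h : ∃ c', f c' = c then S h.choose else ∅, ?_, ?_⟩
  · intro c
    by_cases h : ∃ c', f c' = c
    · simp only [h, dite_true]
      exact hS _
    · simp only [h, dite_false]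
      exact acyclic_empty _
  · intro v hv
    obtain ⟨c', hc'⟩ := mem_iUnion.1 (hA hv)
    refine mem_iUnion.2 ⟨f c', ?_⟩
    have h : ∃ c'', f c'' = f c' := ⟨c', rfl⟩
    simp only [h, dite_true]
    have : h.choose = c' := f.injective h.choose_spec
    rw [this]
    exact hc'

theorem dichromatic_eq (D : Orient G) : D.dichromatic = dichi D univ := by
  apply le_antisymm
  · obtain ⟨C, S, hC, hS, hA⟩ := exists_cover D univ
    have h : ∀ v : V, ∃ i, v ∈ S i := fun v => by simpa using hA (mem_univ v)
    choose f hf using h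
    refine csInf_le' ⟨C, f, hC, fun i => acyclic_mono ?_ (hS i)⟩
    rintro v rfl
    exact hf v
  · have hne : {lam : Cardinal.{u} | ∃ (C : Type u) (c : V → C), #C = lam ∧
        ∀ i, Acyclic D.arc {v | c v = i}}.Nonempty := by
      refine ⟨#V, V, id, rfl, fun i => ?_⟩
      have : {v : V | id v = i} = {i} := by ext; simp
      rw [this]
      exact acyclic_singleton D i
    obtain ⟨C, c, hC, hc⟩ := csInf_mem hne
    have h2 : sInf {lam : Cardinal.{u} | ∃ (C : Type u) (c : V → C), #C = lam ∧
        ∀ i, Acyclic D.arc {v | c v = i}} = D.dichromatic := rfl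
    rw [← h2, ← hC]
    exact dichi_le (fun i => {v | c v = i}) hc (fun v _ => by simp)

theorem dichi_iUnion_le (D : Orient G) {J : Type u} (S : J → Set V) :
    dichi D (⋃ j, S j) ≤ Cardinal.sum (fun j => dichi D (S j)) := by
  choose C T hC hT hA using fun j => exists_cover D (S j)
  have h1 : dichi D (⋃ j, S j) ≤ #(Σ j, C j) := by
    refine dichi_le (fun x : (Σ j, C j) => T x.1 x.2) (fun x => hT _ _) ?_
    intro v hv
    obtain ⟨j, hj⟩ := mem_iUnion.1 hv
    obtain ⟨c, hc⟩ := mem_iUnion.1 (hA j hj)
    exact mem_iUnion.2 ⟨⟨j, c⟩, hc⟩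
  rw [mk_sigma] at h1
  simpa only [hC] using h1

theorem dichi_union_le (D : Orient G) (A B : Set V) :
    dichi D (A ∪ B) ≤ dichi D A + dichi D B := by
  obtain ⟨C, S, hC, hS, hA⟩ := exists_cover D A
  obtain ⟨C', S', hC', hS', hA'⟩ := exists_cover D B
  rw [← hC, ← hC', Cardinal.add_def]
  refine dichi_le (fun x => Sum.elim S S' x) ?_ ?_
  · rintro (i | i)
    · exact hS i
    · exact hS' i
  · rintro v (hv | hv)
    · obtain ⟨c, hc⟩ := mem_iUnion.1 (hA hv)
      exact mem_iUnion.2 ⟨Sum.inl c, hc⟩
    · obtain ⟨c, hc⟩ := mem_iUnion.1 (hA' hv)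
      exact mem_iUnion.2 ⟨Sum.inr c, hc⟩

/-- **Gluing lemma.** Given pairwise disjoint sets `P i` and orientations `E i`, there is one
orientation that is at least as bad as `E i` on `P i` for every `i`, and whose dichromatic number
is at most the supremum of the dichromatic numbers of the `E i` on `P i`. -/
theorem glue {I : Type w} (P : I → Set V) (hP : Pairwise (fun i j => Disjoint (P i) (P j)))
    (E : I → Orient G) :
    ∃ D : Orient G, (∀ i, dichi (E i) (P i) ≤ dichi D univ) ∧
      ∀ lam : Cardinal.{u}, 1 ≤ lam → (∀ i, dichi (E i) (P i) ≤ lam) → dichi D univ ≤ lam := by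
  classical
  let cls : V → I ⊕ V := fun v => if h : ∃ i, v ∈ P i then Sum.inl h.choose else Sum.inr v
  have hcls : ∀ v i, cls v = Sum.inl i ↔ v ∈ P i := by
    intro v i
    by_cases h : ∃ i, v ∈ P i
    · simp only [cls, h, dite_true, Sum.inl.injEq]
      constructor
      · intro h2
        rw [← h2]
        exact h.choose_spec
      · intro h2
        by_contra hne
        exact (Set.disjoint_left.1 (hP hne)) h.choose_spec h2
    · simp only [cls, h, dite_false, reduceCtorEq, false_iff]
      exact fun h2 => h ⟨i, h2⟩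
  have hclsr : ∀ v w, cls v = Sum.inr w → v = w := by
    intro v w h
    by_cases h' : ∃ i, v ∈ P i
    · simp only [cls, h', dite_true, reduceCtorEq] at h
    · simp only [cls, h', dite_false, Sum.inr.injEq] at h
      exact h
  let r : (I ⊕ V) → (I ⊕ V) → Prop := WellOrderingRel
  have hr : IsWellOrder (I ⊕ V) r := WellOrderingRel.isWellOrder
  have hirr : ∀ a, ¬ r a a := fun a => irrefl_of r a
  have htrans : ∀ a b c, r a b → r b c → r a c := fun a b c => trans_of r
  have hasymm : ∀ a b, r a b → ¬ r b a := fun a b => asymm_of r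
  let D : Orient G :=
    { arc := fun u v => (∃ i, cls u = Sum.inl i ∧ cls v = Sum.inl i ∧ (E i).arc u v) ∨
        (G.Adj u v ∧ r (cls u) (cls v))
      adj_of_arc := by
        rintro u v (⟨i, _, _, h⟩ | h)
        · exact (E i).adj_of_arc u v h
        · exact h.1
      exactly_one := by
        intro u v huv
        rcases trichotomous_of r (cls u) (cls v) with h | h | h
        · refine iff_of_true (Or.inr ⟨huv, h⟩) ?_
          rintro (⟨i, h1, h2, _⟩ | h1)
          · rw [h1, h2] at h
            exact hirr _ h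
          · exact hasymm _ _ h h1.2
        · cases hcu : cls u with
          | inr w =>
            exfalso
            have h1 := hclsr u w hcu
            have h2 := hclsr v w (h ▸ hcu)
            rw [h1, h2] at huv
            exact G.loopless.irrefl _ huv
          | inl i =>
            have hcv : cls v = Sum.inl i := h ▸ hcu
            have e1 := (E i).exactly_one u v huv
            constructor
            · rintro (⟨j, h1, h2, h3⟩ | h1) (⟨j', h1', h2', h3'⟩ | h1')
              · have hj : j = i := Sum.inl.inj (h1.symm)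
                have hj' : j' = i := Sum.inl.inj (h2'.symm)
                subst hj
                subst hj'
                exact (e1.1 h3) h3'
              · rw [hcv] at h1'
                exact hirr _ h1'.2
              · rw [hcv] at h1
                exact hirr _ h1.2
              · rw [hcv] at h1
                exact hirr _ h1.2
            · intro hn
              left
              refine ⟨i, rfl, hcv, e1.2 ?_⟩
              intro h3
              exact hn (Or.inl ⟨i, hcv, rfl, h3⟩)
        · refine iff_of_false ?_ (not_not.2 (Or.inr ⟨huv.symm, h⟩))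
          rintro (⟨i, h1, h2, _⟩ | h1)
          · rw [h1, h2] at h
            exact hirr _ h
          · exact hasymm _ _ h h1.2 }
  refine ⟨D, ?_, ?_⟩
  · intro i
    obtain ⟨C, S, hC, hS, hA⟩ := exists_cover D univ
    rw [← hC]
    refine dichi_le (fun c => S c ∩ P i) ?_ ?_
    · intro c v hv
      refine hS c v (Relation.TransGen.mono ?_ _ _ hv)
      rintro a b ⟨h1, h2, h3⟩
      exact ⟨Or.inl ⟨i, (hcls a i).2 h2.2, (hcls b i).2 h3.2, h1⟩, h2.1, h3.1⟩
    · intro v hv
      obtain ⟨c, hc⟩ := mem_iUnion.1 (hA (mem_univ v))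
      exact mem_iUnion.2 ⟨c, hc, hv⟩
  · intro lam hlam hle
    -- key: a set all of whose traces on the classes are acyclic is acyclic
    have key : ∀ S : Set V, (∀ i, Acyclic (E i).arc (S ∩ P i)) → Acyclic D.arc S := by
      intro S hS v hv
      have claim : ∀ b, Relation.TransGen (fun a b => D.arc a b ∧ a ∈ S ∧ b ∈ S) v b →
          r (cls v) (cls b) ∨ ∃ i, cls v = Sum.inl i ∧ cls b = Sum.inl i ∧
            Relation.TransGen (fun a b => (E i).arc a b ∧ a ∈ S ∩ P i ∧ b ∈ S ∩ P i) v b := by
        intro b hb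
        induction hb with
        | single h =>
          obtain ⟨h1, h2, h3⟩ := h
          rcases h1 with ⟨i, h4, h5, h6⟩ | h1
          · right
            exact ⟨i, h4, h5, Relation.TransGen.single
              ⟨h6, ⟨h2, (hcls _ i).1 h4⟩, ⟨h3, (hcls _ i).1 h5⟩⟩⟩
          · left
            exact h1.2
        | tail _ h ih =>
          obtain ⟨h1, h2, h3⟩ := h
          rcases ih with ih | ⟨i, ih1, ih2, ih3⟩
          · left
            rcases h1 with ⟨i, h4, h5, h6⟩ | h1
            · rw [h5, ← h4]
              exact ih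
            · exact htrans _ _ _ ih h1.2
          · rcases h1 with ⟨j, h4, h5, h6⟩ | h1
            · have hj : j = i := Sum.inl.inj (h4.symm.trans ih2)
              subst hj
              right
              exact ⟨j, ih1, h5, ih3.tail
                ⟨h6, ⟨h2, (hcls _ j).1 h4⟩, ⟨h3, (hcls _ j).1 h5⟩⟩⟩
            · left
              rw [ih1, ← ih2]
              exact h1.2
      rcases claim v hv with h | ⟨i, _, _, h⟩
      · exact hirr _ h
      · exact hS i v h
    -- a set of colours
    obtain ⟨C, hC⟩ : ∃ C : Type u, #C = lam := ⟨lam.out, mk_out lam⟩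
    have hne : Nonempty C := by
      rw [← mk_ne_zero_iff, hC]
      exact Cardinal.one_le_iff_ne_zero.1 hlam
    obtain ⟨c0⟩ := hne
    have h3 : ∀ i, ∃ S : C → Set V, (∀ c, Acyclic (E i).arc (S c)) ∧ P i ⊆ ⋃ c, S c :=
      fun i => exists_cover_of_le (by rw [hC]; exact hle i)
    choose S hS hPS using h3
    rw [← hC]
    refine dichi_le (fun c => {v | (∃ i, v ∈ P i ∧ v ∈ S i c) ∨ ((∀ i, v ∉ P i) ∧ c = c0)}) ?_ ?_
    · intro c
      refine key _ (fun i => acyclic_mono ?_ (hS i c))
      rintro v ⟨h1 | h1, h2⟩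
      · obtain ⟨j, h4, h5⟩ := h1
        have hj : i = j := by
          by_contra hne
          exact (Set.disjoint_left.1 (hP hne)) h2 h4
        rw [hj]
        exact h5
      · exact absurd h2 (h1.1 i)
    · intro v _
      by_cases h : ∃ i, v ∈ P i
      · obtain ⟨i, hi⟩ := h
        obtain ⟨c, hc⟩ := mem_iUnion.1 (hPS i hi)
        exact mem_iUnion.2 ⟨c, Or.inl ⟨i, hi, hc⟩⟩
      · exact mem_iUnion.2 ⟨c0, Or.inr ⟨fun i hi => h ⟨i, hi⟩, rfl⟩⟩

end K9h64.Dichi
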