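import Pool.Agent.K9h64.Dichi.Basic

/-!
# Attainment of suprema of dichromatic numbers
-/

open Cardinal Set

universe u v w

namespace K9h64.Dichi

variable {V : Type u} {G : SimpleGraph V}

/-- An ideal `I` of subsets of `V`, proper and containing the singletons, that is `κ`-complete
(closed under unions of fewer than `κ` members), `κ`-saturated (there are no `κ` pairwise disjoint
sets outside `I`), and such that for each `δ < κ` every set outside `I` has more than `δ` pairwise
disjoint subsets outside `I`. -/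
structure IsSaturatedIdeal {V : Type u} (κ : Cardinal.{u}) (I : Set (Set V)) : Prop where
  subset_mem : ∀ A B, A ⊆ B → B ∈ I → A ∈ I
  iUnion_mem : ∀ (J : Type u) (S : J → Set V), #J < κ → (∀ j, S j ∈ I) → (⋃ j, S j) ∈ I
  singleton_mem : ∀ v, {v} ∈ I
  univ_notMem : Set.univ ∉ I
  saturated : ∀ (J : Type u) (S : J → Set V), (∀ j, S j ∉ I) →
    Pairwise (fun i j => Disjoint (S i) (S j)) → #J < κ
  splits : ∀ B, B ∉ I → ∀ δ < κ, ∃ (J : Type u) (S : J → Set V), δ < #J ∧
    (∀ j, S j ⊆ B ∧ S j ∉ I) ∧ Pairwise (fun i j => Disjoint (S i) (S j))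

section

variable {ι : Type v} (D : ι → Orient G)

/-- the supremum of the dichromatic numbers of the orientations `D i` on `A` -/
noncomputable def rho (A : Set V) : Cardinal.{u} := ⨆ i, dichi (D i) A

theorem bdd (A : Set V) : BddAbove (range fun i => dichi (D i) A) :=
  ⟨#V, by rintro _ ⟨i, rfl⟩; exact dichi_le_mk _ _⟩

theorem dichi_le_rho (i : ι) (A : Set V) : dichi (D i) A ≤ rho D A :=
  le_ciSup (bdd D A) i

theorem rho_le {A : Set V} {lam : Cardinal.{u}} (h : ∀ i, dichi (D i) A ≤ lam) :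
    rho D A ≤ lam := by
  rcases isEmpty_or_nonempty ι with h0 | h0
  · unfold rho
    rw [ciSup_of_empty]
    exact bot_le
  · exact ciSup_le h

theorem rho_mono {A B : Set V} (h : A ⊆ B) : rho D A ≤ rho D B :=
  rho_le D (fun i => (dichi_mono _ h).trans (dichi_le_rho D i B))

theorem exists_lt_of_lt_rho {A : Set V} {lam : Cardinal.{u}} (h : lam < rho D A) :
    ∃ i, lam < dichi (D i) A := by
  by_contra hcon
  push Not at hcon
  exact absurd (rho_le D hcon) (not_le.2 h)

theorem rho_union_le (A B : Set V) : rho D (A ∪ B) ≤ rho D A + rho D B :=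
  rho_le D (fun i => (dichi_union_le _ A B).trans
    (add_le_add (dichi_le_rho D i A) (dichi_le_rho D i B)))

theorem rho_iUnion_le {J : Type u} (S : J → Set V) :
    rho D (⋃ j, S j) ≤ Cardinal.sum (fun j => rho D (S j)) :=
  rho_le D (fun i => (dichi_iUnion_le _ S).trans
    (Cardinal.sum_le_sum _ _ (fun j => dichi_le_rho D i (S j))))

theorem rho_iUnion_lt {κ : Cardinal.{u}} (hκ : ℵ₀ ≤ κ) {J : Type u} (S : J → Set V)
    (hJ : #J < κ.ord.cof) (h : ∀ j, rho D (S j) < κ) : rho D (⋃ j, S j) < κ := by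
  refine ((rho_iUnion_le D S).trans (sum_le_mk_mul_iSup _)).trans_lt ?_
  exact mul_lt_of_lt hκ (hJ.trans_le (Ordinal.cof_ord_le κ))
    (Cardinal.iSup_lt_of_lt_cof_ord hJ h)

variable {κ : Cardinal.{u}}

theorem glue_lt (hκ : ℵ₀ ≤ κ) (hD : rho D univ ≤ κ) {I : Type w} (P : I → Set V)
    (hP : Pairwise (fun i j => Disjoint (P i) (P j))) (k : I → Cardinal.{u})
    (hk : ∀ μ < κ, ∃ i, μ ≤ k i) (h : ∀ i, k i < rho D (P i)) :
    ∃ E : Orient G, dichi E univ = κ := by
  choose ξ hξ using fun i => exists_lt_of_lt_rho D (h i)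
  obtain ⟨E, hE1, hE2⟩ := glue P hP (fun i => D (ξ i))
  refine ⟨E, le_antisymm ?_ ?_⟩
  · exact hE2 κ (one_le_aleph0.trans hκ) (fun i =>
      ((dichi_mono _ (subset_univ _)).trans (dichi_le_rho D _ _)).trans hD)
  · by_contra hcon
    push Not at hcon
    obtain ⟨i, hi⟩ := hk _ hcon
    exact absurd (hi.trans_lt (hξ i)) (not_lt.2 (hE1 i))

/-- a cofinal sequence of cardinals below `κ`, indexed by a well order of type `(cof κ).ord` -/
theorem exists_cofinal (κ : Cardinal.{u}) :
    ∃ (Θ : Type u) (_ : LinearOrder Θ) (_ : WellFoundedLT Θ) (k : Θ → Cardinal.{u}),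
      #Θ = κ.ord.cof ∧ (∀ x : Θ, #(Iio x) < κ.ord.cof) ∧ (∀ x, k x < κ) ∧
      ∀ μ < κ, ∃ x, μ ≤ k x := by
  obtain ⟨s, hs, hs'⟩ := Ordinal.exists_ord_cof_eq κ.ord.ToType
  rw [Ordinal.cof_toType] at hs'
  have hcard : #s = κ.ord.cof := by
    have := congrArg Ordinal.card hs'
    rwa [Ordinal.card_type, card_ord] at this
  refine ⟨s, inferInstance, inferInstance, fun x => #(Iio x.1), hcard, ?_, ?_, ?_⟩
  · intro x
    rw [← hcard]
    refine mk_Iio_lt x ?_
    rw [hcard, hs']
  · intro x
    exact mk_Iio_toType_ord_lt x.1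
  · intro μ hμ
    have h1 : μ.ord < Ordinal.type (α := κ.ord.ToType) (· < ·) := by
      rw [Ordinal.type_toType]
      exact ord_lt_ord.2 hμ
    let y : κ.ord.ToType := Ordinal.enum (α := κ.ord.ToType) (· < ·) ⟨μ.ord, h1⟩
    obtain ⟨x, hx, hxy⟩ := hs y
    refine ⟨⟨x, hx⟩, ?_⟩
    have h2 : #(Iio y) = μ := by
      have h3 : Ordinal.typein (α := κ.ord.ToType) (· < ·) y = μ.ord := by
        simp only [y]
        exact Ordinal.typein_enum (α := κ.ord.ToType) (· < ·) h1
      have h4 := congrArg Ordinal.card h3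
      rw [card_ord] at h4
      rw [← h4]
      rfl
    rw [← h2]
    exact mk_le_mk_of_subset (fun z hz => lt_of_lt_of_le hz hxy)

/-- Either the orientations can be glued, or there is a set `A` with `rho A = κ` such that the
values of `rho` on the subsets of `A` other than `κ` are bounded below `κ`. -/
theorem claim1 (hκ : ℵ₀ ≤ κ) (hD : rho D univ = κ) (hno : ¬ ∃ E : Orient G, dichi E univ = κ) :
    ∃ (A : Set V) (γ : Cardinal.{u}), γ < κ ∧ rho D A = κ ∧
      ∀ B ⊆ A, rho D B < κ → rho D B ≤ γ := by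
  classical
  obtain ⟨Θ, _, _, k, hΘ, hIio, hk, hcof⟩ := exists_cofinal κ
  by_contra hcon
  push Not at hcon
  -- the recursion
  let step : (x : Θ) → ((y : Θ) → y < x → Set V) → Set V := fun x F =>
    if h : ∃ B : Set V, B ⊆ (⋃ y : Iio x, F y.1 y.2)ᶜ ∧ k x < rho D B ∧ rho D B < κ then
      h.choose else ∅
  let F : Θ → Set V := WellFoundedLT.fix step
  have hF : ∀ x, F x = if h : ∃ B : Set V, B ⊆ (⋃ y : Iio x, F y.1)ᶜ ∧ k x < rho D B ∧
      rho D B < κ then h.choose else ∅ := by
    intro x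
    exact WellFoundedLT.fix_eq step x
  have hFlt : ∀ x, rho D (F x) < κ := by
    intro x
    rw [hF x]
    split_ifs with h
    · exact h.choose_spec.2.2
    · have h1 : rho D ∅ ≤ 0 := by
        refine rho_le D (fun i => ?_)
        have : dichi (D i) ∅ ≤ #PEmpty.{u+1} := by
          refine dichi_le (fun x => x.elim) (fun i => i.elim) (empty_subset _)
        simpa using this
      exact (h1.trans_lt (by exact (zero_lt_one.trans_le one_le_aleph0))).trans_le hκ
  have hgood : ∀ x, ∃ B : Set V, B ⊆ (⋃ y : Iio x, F y.1)ᶜ ∧ k x < rho D B ∧ rho D B < κ := by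
    intro x
    have h1 : rho D (⋃ y : Iio x, F y.1) < κ :=
      rho_iUnion_lt D hκ (fun y : Iio x => F y.1) (hIio x) (fun y => hFlt _)
    have h2 : rho D (⋃ y : Iio x, F y.1)ᶜ = κ := by
      refine le_antisymm (hD ▸ rho_mono D (subset_univ _)) ?_
      by_contra h3
      push Not at h3
      have h4 := rho_union_le D (⋃ y : Iio x, F y.1) (⋃ y : Iio x, F y.1)ᶜ
      rw [union_compl_self, hD] at h4
      exact absurd h4 (not_le.2 (add_lt_of_lt hκ h1 h3))
    obtain ⟨B, hB1, hB2, hB3⟩ := hcon _ (k x) (hk x) h2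
    exact ⟨B, hB1, hB3, hB2⟩
  have hF' : ∀ x, F x ⊆ (⋃ y : Iio x, F y.1)ᶜ ∧ k x < rho D (F x) := by
    intro x
    have h := hgood x
    have h1 := hF x
    rw [dif_pos h] at h1
    have h2 := h.choose_spec
    rw [← h1] at h2
    exact ⟨h2.1, h2.2.1⟩
  have hdisj : ∀ x y, x < y → Disjoint (F x) (F y) := by
    intro x y hxy
    rw [Set.disjoint_left]
    intro v hvx hvy
    exact (hF' y).1 hvy (mem_iUnion.2 ⟨⟨x, hxy⟩, hvx⟩)
  refine hno (glue_lt D hκ hD.le F ?_ k hcof (fun x => (hF' x).2))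
  intro x y hxy
  rcases lt_or_gt_of_ne hxy with h | h
  · exact hdisj x y h
  · exact (hdisj y x h).symm

/-- Splitting lemma: under the conclusion of `claim1`, every positive subset of `A` has more
than `δ` pairwise disjoint positive subsets, for every `δ < κ`. -/
theorem splitting (hκ : ℵ₀ ≤ κ) (hno : ∀ i, dichi (D i) univ < κ)
    {A : Set V} {γ : Cardinal.{u}} (hγ : γ < κ) (hA : ∀ B ⊆ A, rho D B < κ → rho D B ≤ γ)
    {B : Set V} (hB : B ⊆ A) (hpos : rho D B = κ) {δ : Cardinal.{u}} (hδ : δ < κ)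
    (hle : rho D univ ≤ κ) :
    ∃ (J : Type u) (S : J → Set V), δ < #J ∧ (∀ j, S j ⊆ B ∧ rho D (S j) = κ) ∧
      Pairwise (fun i j => Disjoint (S i) (S j)) := by
  classical
  have h1 : γ + δ < κ := add_lt_of_lt hκ hγ hδ
  obtain ⟨ξ, hξ⟩ := exists_lt_of_lt_rho D (h1.trans_eq hpos.symm)
  obtain ⟨C, S, hC, hS, hcov, hsub, hdisj⟩ := exists_partition (D ξ) B
  have hClt : #C < κ := by
    rw [hC]
    exact (dichi_mono _ (subset_univ _)).trans_lt (hno ξ)
  let J : Type u := {c : C // rho D (S c) = κ}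
  let K : Type u := {c : C // rho D (S c) ≠ κ}
  refine ⟨J, fun j => S j.1, ?_, fun j => ⟨hsub _, j.2⟩, ?_⟩
  · by_contra hcon
    push Not at hcon
    let N : Set V := ⋃ c : K, S c.1
    have hNle : rho D N ≤ #C * γ := by
      refine (rho_iUnion_le D _).trans ?_
      have h2 : Cardinal.sum (fun c : K => rho D (S c.1)) ≤ Cardinal.sum (fun _ : K => γ) := by
        refine Cardinal.sum_le_sum _ _ (fun c => ?_)
        refine hA _ ((hsub _).trans hB) (lt_of_le_of_ne ?_ c.2)
        exact (rho_mono D (subset_univ _)).trans hle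
      refine h2.trans ?_
      rw [Cardinal.sum_const']
      gcongr
      exact mk_subtype_le _
    have hN : rho D N ≤ γ := by
      refine hA N ?_ (hNle.trans_lt (mul_lt_of_lt hκ hClt hγ))
      exact iUnion_subset (fun c => (hsub _).trans hB)
    have h3 : B ⊆ N ∪ ⋃ j : J, S j.1 := by
      intro v hv
      obtain ⟨c, hc⟩ := mem_iUnion.1 (hcov hv)
      by_cases hcκ : rho D (S c) = κ
      · exact Or.inr (mem_iUnion.2 ⟨⟨c, hcκ⟩, hc⟩)
      · exact Or.inl (mem_iUnion.2 ⟨⟨c, hcκ⟩, hc⟩)
    have h4 : dichi (D ξ) B ≤ γ + δ := by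
      refine (dichi_mono _ h3).trans ((dichi_union_le _ _ _).trans (add_le_add ?_ ?_))
      · exact (dichi_le_rho D ξ N).trans hN
      · refine (dichi_le (fun j : J => S j.1) (fun j => hS _) subset_rfl).trans hcon
    exact absurd h4 (not_le.2 hξ)
  · intro i j hij
    exact hdisj (fun h => hij (Subtype.ext h))

theorem main (hκ : ℵ₀ ≤ κ) (hD : rho D univ = κ) :
    (∃ E : Orient G, dichi E univ = κ) ∨
    (ℵ₀ < κ ∧ κ.IsRegular ∧ Order.IsSuccLimit κ ∧ ∃ I : Set (Set V), IsSaturatedIdeal κ I) := by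
  classical
  by_contra hcon
  push Not at hcon
  obtain ⟨hno, hcon⟩ := hcon
  have hno' : ¬ ∃ E : Orient G, dichi E univ = κ := by
    rintro ⟨E, hE⟩
    exact hno E hE
  have hlt : ∀ i, dichi (D i) univ < κ := fun i =>
    lt_of_le_of_ne ((dichi_le_rho D i univ).trans hD.le) (hno _)
  have hle : rho D univ ≤ κ := hD.le
  obtain ⟨A, γ, hγ, hAκ, hA⟩ := claim1 D hκ hD hno'
  obtain ⟨Θ, _, _, k, hΘ, hIio, hk, hcof⟩ := exists_cofinal κ
  -- there are no `cof κ` many disjoint positive sets
  have hsat : ∀ (J : Type u) (S : J → Set V), (∀ j, rho D (S j) = κ) →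
      Pairwise (fun i j => Disjoint (S i) (S j)) → #J < κ.ord.cof := by
    intro J S hS hdisj
    by_contra hJ
    push Not at hJ
    rw [← hΘ] at hJ
    obtain ⟨f⟩ := hJ
    refine hno' (glue_lt D hκ hle (fun x => S (f x)) ?_ k hcof (fun x => ?_))
    · intro x y hxy
      exact hdisj (fun h => hxy (f.injective h))
    · rw [hS]
      exact hk x
  rcases isRegular_or_isSingular hκ with hreg | hsing
  · rcases hκ.eq_or_lt with hω | hω
    · -- κ = ω
      have hstep : ∀ B : {B : Set V // B ⊆ A ∧ rho D B = κ},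
          ∃ B₁ B₂ : {B : Set V // B ⊆ A ∧ rho D B = κ}, B₁.1 ⊆ B.1 ∧ B₂.1 ⊆ B.1 ∧
            Disjoint B₁.1 B₂.1 := by
        rintro ⟨B, hB, hpos⟩
        have h1 : (1 : Cardinal.{u}) < κ := one_lt_aleph0.trans_le hκ
        obtain ⟨J, S, hJ, hS, hdisj⟩ := splitting D hκ hlt hγ hA hB hpos h1 hle
        obtain ⟨a, b, hab⟩ := Cardinal.one_lt_iff_nontrivial.1 hJ
        exact ⟨⟨S a, (hS a).1.trans hB, (hS a).2⟩, ⟨S b, (hS b).1.trans hB, (hS b).2⟩,
          (hS a).1, (hS b).1, hdisj hab⟩
      choose keep next hkeep hnext hkn using hstep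
      let B : ℕ → {B : Set V // B ⊆ A ∧ rho D B = κ} := fun n =>
        Nat.rec ⟨A, subset_rfl, hAκ⟩ (fun _ X => next X) n
      have hBs : ∀ n, B (n + 1) = next (B n) := fun n => rfl
      have hmono : ∀ n m, n ≤ m → (B m).1 ⊆ (B n).1 := by
        intro n m hnm
        induction hnm with
        | refl => exact subset_rfl
        | step _ ih =>
          rw [hBs]
          exact (hnext _).trans ih
      have hd : ∀ n m, n < m → Disjoint (keep (B n)).1 (keep (B m)).1 := by
        intro n m hnm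
        refine (hkn (B n)).mono_right ?_
        rw [← hBs]
        exact (hkeep _).trans (hmono _ _ hnm)
      refine hno' (glue_lt D hκ hle (fun n : ℕ => (keep (B n)).1) ?_ (fun n => (n : Cardinal.{u}))
        ?_ ?_)
      · intro x y hxy
        rcases lt_or_gt_of_ne hxy with h | h
        · exact hd x y h
        · exact (hd y x h).symm
      · intro μ hμ
        rw [← hω] at hμ
        obtain ⟨n, rfl⟩ := Cardinal.lt_aleph0.1 hμ
        exact ⟨n, le_rfl⟩
      · intro n
        rw [(keep (B n)).2.2, ← hω]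
        exact natCast_lt_aleph0
    · -- κ regular uncountable
      have hcofκ : κ.ord.cof = κ := hreg.cof_ord
      have hlim : Order.IsSuccLimit κ := by
        refine ⟨?_, ?_⟩
        · intro hmin
          have h0 : κ ≤ 0 := hmin zero_le
          exact absurd (hω.trans_le h0) (not_lt.2 zero_le)
        · intro μ hμ
          have hμlt : μ < κ := hμ.lt
          have h1 : rho D univ ≤ μ := rho_le D (fun i => by
            by_contra h2
            push Not at h2
            exact hμ.2 h2 (hlt i))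
          rw [hD] at h1
          exact absurd h1 (not_le.2 hμlt)
      refine hcon hω hreg hlim {B | rho D (B ∩ A) < κ} ?_
      constructor
      · intro B C hBC hC
        exact (rho_mono D (inter_subset_inter_left A hBC)).trans_lt hC
      · intro J S hJ hS
        have h1 : (⋃ j, S j) ∩ A = ⋃ j, (S j ∩ A) := iUnion_inter _ _
        show rho D ((⋃ j, S j) ∩ A) < κ
        rw [h1]
        exact rho_iUnion_lt D hκ _ (by rw [hcofκ]; exact hJ) hS
      · intro v
        show rho D ({v} ∩ A) < κ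
        refine lt_of_le_of_lt (b := 1) (rho_le D (fun i => ?_)) (one_lt_aleph0.trans_le hκ)
        have h2 : dichi (D i) ({v} ∩ A) ≤ #PUnit.{u+1} :=
          dichi_le (fun _ => {v}) (fun _ => acyclic_singleton _ _)
            (fun w hw => mem_iUnion.2 ⟨PUnit.unit, hw.1⟩)
        simpa using h2
      · show ¬ rho D (univ ∩ A) < κ
        rw [univ_inter, hAκ]
        exact lt_irrefl _
      · intro J S hS hdisj
        rw [← hcofκ]
        refine hsat J (fun j => S j ∩ A) (fun j => ?_) ?_
        · refine le_antisymm ((rho_mono D (subset_univ _)).trans hle) ?_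
          have h3 : ¬ rho D (S j ∩ A) < κ := hS j
          exact not_lt.1 h3
        · intro x y hxy
          exact (hdisj hxy).mono inter_subset_left inter_subset_left
      · intro B hB δ hδ
        have h3 : ¬ rho D (B ∩ A) < κ := hB
        have h4 : rho D (B ∩ A) = κ :=
          le_antisymm ((rho_mono D (subset_univ _)).trans hle) (not_lt.1 h3)
        obtain ⟨J, S, hJ, hS, hdisj⟩ := splitting D hκ hlt hγ hA inter_subset_right h4 hδ hle
        refine ⟨J, S, hJ, fun j => ⟨(hS j).1.trans inter_subset_left, ?_⟩, hdisj⟩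
        show ¬ rho D (S j ∩ A) < κ
        rw [inter_eq_left.2 ((hS j).1.trans inter_subset_right), (hS j).2]
        exact lt_irrefl _
  · -- κ singular
    obtain ⟨J, S, hJ, hS, hdisj⟩ :=
      splitting D hκ hlt hγ hA subset_rfl hAκ hsing.cof_ord_lt hle
    exact absurd (hsat J S (fun j => (hS j).2) hdisj) (not_lt.2 hJ.le)

end

end K9h64.Dichi
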